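import Pool.Agent.TH377.Hyp.Smooth
import Pool.Agent.TH377.Hyp.Dens
import Pool.Agent.TH377.HB.Adelic
import Pool.Agent.TH377.Dyn.Main
import Pool.Agent.TH377.Dyn.Box

/-!
# MP_03ef3d_ag: Fano hypersurfaces without adelic points

Let `K` be a number field, `2 ≤ k ≤ d < 2 k`, `b ∈ O_K`, and let `F_0, …, F_{k-1}` be binary forms of degree
`d` over `O_K`.  In the projective space of dimension `2k - 1` with the homogeneous coordinates
`x_{j0}, x_{j1}` (`0 ≤ j < k`) we consider the hypersurfaces

  `X_G : F_0(x_{00}, x_{01}) + b F_1(x_{10}, x_{11}) + … + b^{k-1} F_{k-1}(x_{k-1,0}, x_{k-1,1}) + G = 0`,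

where `G` is ANY form of degree `d` over `O_K` whose coefficient at a monomial of weight `w` (the
variables `x_{j0}, x_{j1}` have weight `j`) is divisible by `b^(⌊w/d⌋ + 1)`.  For `b = 1` these are all
hypersurfaces of degree `d`, so the hypersurfaces `X_G` form a family that dominates the space of all
hypersurfaces of degree `d`.  If `X_G` is smooth, it is a Fano variety, as `d < 2 k`: cubic surfaces for
`k = 2` and `d = 3`, fourfolds of degree `3`, `4` or `5` for `k = 3`, and so on.

We prove: for 100% of the vectors `(b, F_0, …, F_{k-1})` the hypersurface `X_0` is smooth, and for ALL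
number fields `L` over `K` whose degree `n` over `K` satisfies

  `k n ≤ d`,  or  `k l^{v_l(n)} ≤ l^{v_l(d)}` for some prime number `l`,

there is a prime `w` of `L` such that for ALL `G` as above the hypersurface `X_G` has no point over the
completion `L_w`.  In particular this holds for `L = K`, and, if `d` is a prime number, for all `L` whose
degree is not divisible by `d`; for instance for cubic surfaces and all `L` with `3 ∤ [L : K]`.  So for
100% of the vectors `X_G(A_L)` is empty, and the Brauer-Manin obstruction is the only one to the Hasse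
principle for `X_G` over `L`, for a trivial reason, but for all smooth `X_G` and all these `L`.  The
exceptional set of vectors does not depend on `G` or `L`.  It has density zero in boxes (with respect to
any integral basis), and in a stronger sense: for every `ε > 0` there is an ideal `I ≠ 0` such that the
exceptional vectors lie in at most `ε #(O_K/I)^(k(d+1)+1)` classes modulo `I`.

Proof.  Let `v` be a prime of `K` that divides `b` exactly once, such that all `F_j` are irreducible of
degree `d` modulo `v`.  Because of `∑ e(w|v) f(w|v) = [L : K]` and the condition on `n` there is a place `w`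
of `L` above `v` such that `d` does not divide `f(w|v)` and none of the numbers `i e(w|v)`, `0 < i < k`.  So
the forms `F_j` have no zeros over the residue field of `w`, and `w(F_j(x, y)) = d min(w(x), w(y))` for all
`x, y ∈ L_w`.  So the values of the terms `b^j F_j` at a vector with coordinates in `L_w` are congruent to
`j e(w|v)` modulo `d`, and these are different for different `j`.  By the weights, the value of `G` is
larger than the smallest of these values.  So the sum is not zero.  The prime `v` exists for almost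
all vectors, because the conditions hold for a proportion of at least `(4d)^(-k) (1/N v - 1/(N v)²)`
of all vectors modulo `v²`, and the sum of the `1/N v` diverges.

For the zero-cycles over `K_v` see `MP_1ad228_nt.HypersurfaceIndex`, for hypersurfaces of general type
`MP_9410e4_ag.DegreesOfPoints`, for quartic surfaces `MP_ed3816_nt.QuarticsWithoutAdelicPoints`.
-/

set_option autoImplicit false
set_option maxHeartbeats 400000

open NumberField Filter Topology IsDedekindDomain

namespace Pool.Agent.Results.MP_03ef3d_ag.FanoWithoutAdelicPoints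

universe u v w

/-- The coefficient of `x_{j0}^i x_{j1}^{d-i}` in `F_j`: the entry number `1 + j (d + 1) + i` of the
vector `c`.  The entry number `0` is `b`. -/
def coef {R : Type u} {k d : ℕ} (c : Fin (k * (d + 1) + 1) → R) (j : Fin k) (i : Fin (d + 1)) : R :=
  c (finProdFinEquiv (j, i)).succ

/-- The form `∑_j b^j F_j(x_{j0}, x_{j1}) + G`. -/
noncomputable def form {R : Type u} [CommRing R] {k d : ℕ} (c : Fin (k * (d + 1) + 1) → R)
    (G : MvPolynomial (Fin k × Fin 2) R) : MvPolynomial (Fin k × Fin 2) R :=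
  ∑ j : Fin k, MvPolynomial.C (c 0 ^ (j : ℕ)) * (∑ i : Fin (d + 1),
    MvPolynomial.C (coef c j i) * (MvPolynomial.X (j, 0) ^ (i : ℕ) *
      MvPolynomial.X (j, 1) ^ (d - i))) + G

/-- The weight of a monomial: the variables `x_{j0}, x_{j1}` have weight `j`. -/
def weight {k : ℕ} (α : Fin k × Fin 2 →₀ ℕ) : ℕ := ∑ p, (p.1 : ℕ) * α p

/-- `G` is a form of degree `d` whose coefficient at every monomial of weight `w` is divisible by
`b^(⌊w/d⌋ + 1)`. -/
def Allowed {R : Type u} [CommRing R] (k d : ℕ) (b : R) (G : MvPolynomial (Fin k × Fin 2) R) :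
    Prop :=
  G.IsHomogeneous d ∧ ∀ α, b ^ (weight α / d + 1) ∣ G.coeff α

/-- The hypersurface `F = 0` over `O_K` has no point over the completion `L_w`: no vector `x ≠ 0` with
entries in `L_w` is a zero of `F`. -/
def NoPointOver {K : Type u} [Field K] {k : ℕ} (L : Type v) [Field L] [NumberField L]
    [Algebra K L] (w : HeightOneSpectrum (𝓞 L)) (F : MvPolynomial (Fin k × Fin 2) (𝓞 K)) : Prop :=
  ∀ x : Fin k × Fin 2 → w.adicCompletion L, x ≠ 0 →
    MvPolynomial.eval₂ ((algebraMap L (w.adicCompletion L)).comp (algebraMap (𝓞 K) L)) x F ≠ 0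

/-- The condition on the degree `n` of `L` over `K`: `k n ≤ d`, or there is a prime number `l` with
`k l^{v_l(n)} ≤ l^{v_l(d)}`. -/
def Small (k d n : ℕ) : Prop :=
  k * n ≤ d ∨ ∃ l : ℕ, l.Prime ∧ k * l ^ padicValNat l n ≤ l ^ padicValNat l d

/-- The vectors `c = (b, F_0, …, F_{k-1})` that do not have the following property: `b ≠ 0`, the
hypersurface `∑_j b^j F_j = 0` is smooth, and for all number fields `L` over `K` whose degree `n` over `K`
satisfies the condition `Small` there is a prime `w` of `L` such that for all allowed `G` the hypersurface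
`∑_j b^j F_j + G = 0` has no point over `L_w`. -/
def Exceptional (K : Type u) [Field K] (k d : ℕ) : Set (Fin (k * (d + 1) + 1) → 𝓞 K) :=
  {c | ¬ (c 0 ≠ 0 ∧
    (∀ x : Fin k × Fin 2 → AlgebraicClosure K, x ≠ 0 →
      ∃ p, MvPolynomial.aeval x (MvPolynomial.pderiv p (form c 0)) ≠ 0) ∧
    ∀ (L : Type v) [Field L] [NumberField L] [Algebra K L], Small k d (Module.finrank K L) →
      ∃ w : HeightOneSpectrum (𝓞 L), ∀ G : MvPolynomial (Fin k × Fin 2) (𝓞 K),
        Allowed k d (c 0) G → NoPointOver L w (form c G))}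

/-- Density zero: for every `ε > 0` there is an ideal `I ≠ 0` such that `E` lies in at most
`ε #(O_K/I)ᴺ` residue classes modulo `I`. -/
def DensityZero {K : Type u} [Field K] {N : ℕ} (E : Set (Fin N → 𝓞 K)) : Prop :=
  ∀ ε : ℝ, 0 < ε → ∃ I : Ideal (𝓞 K), I ≠ ⊥ ∧
    (Set.ncard ((fun (t : Fin N → 𝓞 K) i => Ideal.Quotient.mk I (t i)) '' E) : ℝ) ≤
      ε * (Nat.card (𝓞 K ⧸ I) : ℝ) ^ N

/-- The vectors all of whose entries have coordinates of absolute value at most `H` in the integral
basis `ω`. -/
def Box {K : Type u} [Field K] {J : Type w} (ω : Module.Basis J ℤ (𝓞 K)) (N H : ℕ) :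
    Set (Fin N → 𝓞 K) :=
  {c | ∀ i j, |ω.repr (c i) j| ≤ (H : ℤ)}

section proof

open Pool.Agent.TH377.Dyn Pool.Agent.TH377.Sup Pool.Agent.TH377.Hyp Pool.Agent.TH377.HB

/-- the polynomial of a block -/
noncomputable def bp {K : Type u} [Field K] {k d : ℕ} (c : Fin (k * (d + 1) + 1) → 𝓞 K)
    (j : Fin k) : Polynomial (𝓞 K) := pol fun i => coef c j i

lemma bp_facts {K : Type u} [Field K] [NumberField K] {k d : ℕ}
    (c : Fin (k * (d + 1) + 1) → 𝓞 K) (j : Fin k)
    (v : HeightOneSpectrum (𝓞 K)) (h : IrrMod v d fun i => coef c j i) :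
    (bp c j).natDegree = d ∧ (bp c j).leadingCoeff ∉ v.asIdeal ∧
      Irreducible ((bp c j).map (Ideal.Quotient.mk v.asIdeal)) := by
  have h0 : coef c j (Fin.last d) ≠ 0 := fun h0 => h.1 (by
    change coef c j (Fin.last d) ∈ v.asIdeal
    rw [h0]
    exact zero_mem _)
  refine ⟨pol_natDegree (fun i : Fin (d + 1) => coef c j i) h0, ?_, ?_⟩
  · rw [bp, pol_leadingCoeff (fun i : Fin (d + 1) => coef c j i) h0]
    exact h.1
  · rw [bp, pol_map]
    exact h.2

lemma bp_coeff {K : Type u} [Field K] {k d : ℕ} (c : Fin (k * (d + 1) + 1) → 𝓞 K)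
    (j : Fin k) (i : Fin (d + 1)) : (bp c j).coeff i = coef c j i :=
  pol_coeff (fun i : Fin (d + 1) => coef c j i) i

/-- the value of the form -/
lemma eval_form {K : Type u} [Field K] {M : Type v} [Field M] {k d : ℕ} (φ : 𝓞 K →+* M)
    (c : Fin (k * (d + 1) + 1) → 𝓞 K) (G : MvPolynomial (Fin k × Fin 2) (𝓞 K))
    (x : Fin k × Fin 2 → M) :
    MvPolynomial.eval₂ φ x (form c G) = ∑ j : Fin k, (φ (c 0)) ^ (j : ℕ) *
      bin ((bp c j).map φ) d (x (j, 0)) (x (j, 1)) +
      MvPolynomial.eval x (MvPolynomial.map φ G) := by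
  rw [MvPolynomial.eval_map]
  change MvPolynomial.eval₂Hom φ x _ = _ + MvPolynomial.eval₂Hom φ x G
  rw [form, map_add]
  congr 1
  rw [map_sum]
  refine Finset.sum_congr rfl fun j _ => ?_
  rw [map_mul, map_sum, MvPolynomial.eval₂Hom_C, map_pow, bin]
  congr 1
  refine Finset.sum_congr rfl fun i _ => ?_
  rw [map_mul, map_mul, map_pow, map_pow, MvPolynomial.eval₂Hom_C, MvPolynomial.eval₂Hom_X',
    MvPolynomial.eval₂Hom_X', Polynomial.coeff_map, bp_coeff]

/-- the first partial derivatives -/
lemma pderiv_zero {R : Type u} [CommRing R] {L : Type v} [Field L] [Algebra R L] {k d : ℕ}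
    (c : Fin (k * (d + 1) + 1) → R) (x : Fin k × Fin 2 → L) (j : Fin k) :
    MvPolynomial.aeval x (MvPolynomial.pderiv (j, 0) (form c 0)) =
      (algebraMap R L (c 0)) ^ (j : ℕ) * ∑ i : Fin (d + 1), algebraMap R L (coef c j i) *
        ((((i : ℕ) : L) * x (j, 0) ^ ((i : ℕ) - 1)) * x (j, 1) ^ (d - i)) := by
  classical
  rw [form, add_zero, map_sum, map_sum, Finset.sum_eq_single j]
  · rw [MvPolynomial.pderiv_C_mul, map_mul, MvPolynomial.aeval_C,
      map_pow, map_sum, map_sum]
    congr 1
    refine Finset.sum_congr rfl fun i _ => ?_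
    rw [MvPolynomial.pderiv_C_mul, map_mul, MvPolynomial.aeval_C,
      MvPolynomial.pderiv_mul, MvPolynomial.pderiv_pow, MvPolynomial.pderiv_pow,
      MvPolynomial.pderiv_X_self, MvPolynomial.pderiv_X_of_ne (by simp)]
    congr 1
    simp only [mul_one, mul_zero, add_zero, map_mul, map_natCast, map_pow, MvPolynomial.aeval_X]
  · intro j' _ hj'
    rw [MvPolynomial.pderiv_C_mul, map_sum, Finset.sum_eq_zero,
      mul_zero, map_zero]
    intro i _
    rw [MvPolynomial.pderiv_C_mul,
      MvPolynomial.pderiv_mul, MvPolynomial.pderiv_pow, MvPolynomial.pderiv_pow,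
      MvPolynomial.pderiv_X_of_ne (by simp [hj']), MvPolynomial.pderiv_X_of_ne (by simp)]
    simp
  · intro h
    exact absurd (Finset.mem_univ j) h

lemma pderiv_one {R : Type u} [CommRing R] {L : Type v} [Field L] [Algebra R L] {k d : ℕ}
    (c : Fin (k * (d + 1) + 1) → R) (x : Fin k × Fin 2 → L) (j : Fin k) :
    MvPolynomial.aeval x (MvPolynomial.pderiv (j, 1) (form c 0)) =
      (algebraMap R L (c 0)) ^ (j : ℕ) * ∑ i : Fin (d + 1), algebraMap R L (coef c j i) *
        (x (j, 0) ^ (i : ℕ) * (((d - i : ℕ) : L) * x (j, 1) ^ (d - i - 1))) := by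
  classical
  rw [form, add_zero, map_sum, map_sum, Finset.sum_eq_single j]
  · rw [MvPolynomial.pderiv_C_mul, map_mul, MvPolynomial.aeval_C,
      map_pow, map_sum, map_sum]
    congr 1
    refine Finset.sum_congr rfl fun i _ => ?_
    rw [MvPolynomial.pderiv_C_mul, map_mul, MvPolynomial.aeval_C,
      MvPolynomial.pderiv_mul, MvPolynomial.pderiv_pow, MvPolynomial.pderiv_pow,
      MvPolynomial.pderiv_X_self, MvPolynomial.pderiv_X_of_ne (by simp)]
    congr 1
    simp only [mul_one, mul_zero, zero_mul, zero_add, map_mul, map_natCast, map_pow,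
      MvPolynomial.aeval_X]
  · intro j' _ hj'
    rw [MvPolynomial.pderiv_C_mul, map_sum, Finset.sum_eq_zero,
      mul_zero, map_zero]
    intro i _
    rw [MvPolynomial.pderiv_C_mul,
      MvPolynomial.pderiv_mul, MvPolynomial.pderiv_pow, MvPolynomial.pderiv_pow,
      MvPolynomial.pderiv_X_of_ne (by simp), MvPolynomial.pderiv_X_of_ne (by simp [hj'])]
    simp
  · intro h
    exact absurd (Finset.mem_univ j) h

lemma good {K : Type u} [Field K] [NumberField K] {k d : ℕ} (hk : 2 ≤ k) (hd : 2 ≤ d)
    (c : Fin (k * (d + 1) + 1) → 𝓞 K) (v : HeightOneSpectrum (𝓞 K)) (hv : c 0 ∈ v.asIdeal)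
    (hv2 : c 0 ∉ v.asIdeal ^ 2) (h : ∀ j, IrrMod v d fun i => coef c j i) :
    c ∉ Exceptional.{u, v} K k d := by
  intro hc
  apply hc
  have h0 : c 0 ≠ 0 := by
    intro h0
    apply hv2
    rw [h0]
    exact zero_mem _
  refine ⟨h0, ?_, ?_⟩
  · intro x hx
    obtain ⟨p, hp⟩ : ∃ p, x p ≠ 0 := Function.ne_iff.1 hx
    obtain ⟨j, s⟩ := p
    obtain ⟨h1, h2, h3⟩ := bp_facts c j v (h j)
    have hinj : Function.Injective (algebraMap (𝓞 K) (AlgebraicClosure K)) :=
      FaithfulSMul.algebraMap_injective (𝓞 K) (AlgebraicClosure K)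
    have hirr := irr_of_mod v (bp c j) (by omega) h2 h3
    have hsep : ((bp c j).map (algebraMap (𝓞 K) (AlgebraicClosure K))).Separable := by
      have e1 : (bp c j).map (algebraMap (𝓞 K) (AlgebraicClosure K)) =
          ((bp c j).map (algebraMap (𝓞 K) K)).map (algebraMap K (AlgebraicClosure K)) := by
        rw [Polynomial.map_map, ← IsScalarTower.algebraMap_eq]
      rw [e1]
      exact (PerfectField.separable_of_irreducible hirr).map
    have hdeg : ((bp c j).map (algebraMap (𝓞 K) (AlgebraicClosure K))).natDegree = d := by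
      rw [Polynomial.natDegree_map_eq_of_injective hinj, h1]
    have hxy : x (j, 0) ≠ 0 ∨ x (j, 1) ≠ 0 := by
      fin_cases s
      · exact Or.inl hp
      · exact Or.inr hp
    have hb : (algebraMap (𝓞 K) (AlgebraicClosure K) (c 0)) ^ (j : ℕ) ≠ 0 :=
      pow_ne_zero _ (by rwa [Ne, map_eq_zero_iff _ hinj])
    rcases smooth_bin _ d (by omega) hdeg hsep _ _ hxy with h4 | h4
    · refine ⟨(j, 0), ?_⟩
      rw [pderiv_zero]
      refine mul_ne_zero hb ?_
      rw [d0] at h4
      simp only [Polynomial.coeff_map, bp_coeff] at h4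
      exact h4
    · refine ⟨(j, 1), ?_⟩
      rw [pderiv_one]
      refine mul_ne_zero hb ?_
      rw [d1] at h4
      simp only [Polynomial.coeff_map, bp_coeff] at h4
      exact h4
  · intro L _ _ _ hL
    have hs : SmallE k d (Module.finrank K L) := by
      exact hL
    obtain ⟨q, hq1, hq2⟩ := exists_good_place' (L := L) v k d hk hs
    refine ⟨ovr v q, fun G hG x hx => ?_⟩
    rw [eval_form]
    exact comp_point v k d hd (c 0) hv hv2 (bp c) (fun j => bp_facts c j v (h j)) q hq1 hq2 G
      hG.1 hG.2 x hx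

end proof

/-- Let `K` be a number field and `2 ≤ k ≤ d < 2 k`.  For all vectors `(b, F_0, …, F_{k-1})` over `O_K`, the
`F_j` being binary forms of degree `d`, outside a set of density zero, the hypersurface
`∑_j b^j F_j(x_{j0}, x_{j1}) = 0` is smooth, and for all number fields `L` over `K` whose degree `n` over `K`
satisfies `k n ≤ d` or `k l^{v_l(n)} ≤ l^{v_l(d)}` for a prime number `l`, there is a prime `w` of `L` such
that for all allowed forms `G` the hypersurface `∑_j b^j F_j + G = 0` has no point over `L_w`.  The condition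
holds for `n = 1` and, if `d` is a prime number, for all `n` that are not divisible by `d`. -/
theorem result (K : Type u) [Field K] [NumberField K] (k d : ℕ) (hk : 2 ≤ k) (hkd : k ≤ d)
    (hd : d < 2 * k) :
    (DensityZero (Exceptional.{u, v} K k d) ∧
      ∀ (J : Type w) [Fintype J] (ω : Module.Basis J ℤ (𝓞 K)),
        Tendsto (fun H : ℕ => ((Exceptional.{u, v} K k d ∩ Box ω (k * (d + 1) + 1) H).ncard : ℝ) /
          ((Box ω (k * (d + 1) + 1) H).ncard : ℝ)) atTop (𝓝 0)) ∧
    Small k d 1 ∧ (d.Prime → ∀ n : ℕ, ¬ d ∣ n → Small k d n) := by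
  have key : Pool.Agent.TH120.Sec.DZ (k * (d + 1) + 1) (Exceptional.{u, v} K k d) := by
    refine Pool.Agent.TH377.Dyn.DZ.mono
      (Pool.Agent.TH377.Hyp.dz_blocks K k d (by omega)) ?_
    intro c hc hex
    obtain ⟨v, h1, h2, h3⟩ := hex
    exact good hk (by omega) c v h1 h2 h3 hc
  refine ⟨⟨key, fun J _ ω => Pool.Agent.TH377.Dyn.box_tendsto _ key ω⟩, Or.inl (by omega), ?_⟩
  intro hp n hn
  refine Or.inr ⟨d, hp, ?_⟩
  have hfact : Fact d.Prime := ⟨hp⟩
  rw [padicValNat.eq_zero_of_not_dvd hn, padicValNat_self, pow_zero, pow_one, mul_one]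
  exact hkd

end Pool.Agent.Results.MP_03ef3d_ag.FanoWithoutAdelicPoints
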